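import Mathlib
import Pool.Agent.H77.Tard.Final

/-!
# Total weighted tardiness is strongly NP-hard when all processing times are at most 8

The proof is a reduction from MAX-CUT, which is computable in polynomial time
(`Pool.Agent.H77.Tard.PT_bitRep_red`), correct (`Pool.Agent.H77.Tard.Inst.red_correct`), and starts
from a complete proof of the Cook-Levin theorem (`Pool.Agent.H78.NP`).  The machine model is
Mathlib's `FinTM2`.  The code of instances is injective (`Pool.Agent.H77.Tard.code_injective`).
-/

set_option autoImplicit false

namespace Pool.Agent.Results.MP_9ce56d_lc.NotFPT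

open Pool.Agent.H77.Tard Pool.Agent.H78.NP Turing Computability

open Classical in
/-- The total weighted tardiness problem on one machine is fixed-parameter tractable for the
parameter `p_max`: a multi-stack Turing machine `A` decides, for every instance `x = (I, k)` with
positive processing times, whether some schedule has total weighted tardiness at most `k`, in at
most `f (p_max) * q |x|` steps, where `f` is some function, `q` is a polynomial and `|x|` is the
length of the binary code of `x`.  (It is not even required that `f` is computable.) -/
def FixedParameterTractable : Prop :=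
  ∃ (A : TM2ComputableAux Bool Bool) (f : ℕ → ℕ) (q : Polynomial ℕ),
    ∀ x : List Job × ℕ, (∀ j ∈ x.1, 1 ≤ j.p) →
      Nonempty (TM2OutputsInTime A.tm ((code x).map A.inputAlphabet.symm)
        (some ((encodeBool (decide (Tardy x.1 x.2))).map A.outputAlphabet.symm))
        (f (pmax x.1) * q.eval (code x).length))

/-- (1) The total weighted tardiness problem on one machine is NP-hard (polynomial-time many-one
reductions of all languages in NP) on the instances whose processing times are between `1` and `8`
and whose numbers are all at most `10 ^ 18 * (N + 1) ^ 15`, where `N` is the number of jobs.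
(2) If it is fixed-parameter tractable for the parameter `p_max`, then P = NP. -/
theorem result :
    NPHardOn code
      (fun x => (∀ j ∈ x.1, 1 ≤ j.p ∧ j.p ≤ 8 ∧ j.d ≤ 10 ^ 18 * (x.1.length + 1) ^ 15 ∧
        j.w ≤ 10 ^ 18 * (x.1.length + 1) ^ 15) ∧ x.2 ≤ 10 ^ 18 * (x.1.length + 1) ^ 15)
      (fun x => Tardy x.1 x.2) ∧
    (FixedParameterTractable → ∀ L : Set (List Bool), InNP L → InP L) := by
  refine ⟨npHard, ?_⟩
  rintro ⟨A, f, q, hA⟩ L hL
  refine inP_of_fast npHard A (Polynomial.C ((Finset.range 9).sup f) * q) (fun x hx => ?_) L hL
  obtain ⟨⟨⟨m, hm⟩, hmn⟩⟩ := hA x (fun j hj => (hx.1 j hj).1)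
  refine ⟨⟨⟨m, hm⟩, hmn.trans ?_⟩⟩
  rw [Polynomial.eval_mul, Polynomial.eval_C]
  have h8 : pmax x.1 ≤ 8 := pmax_le (fun j hj => (hx.1 j hj).2.1)
  exact Nat.mul_le_mul_right _ (Finset.le_sup (f := f) (Finset.mem_range.2 (by omega)))

end Pool.Agent.Results.MP_9ce56d_lc.NotFPT
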